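import Mathlib

/-! # Gaussian mean values of Dirichlet polynomials

`DP S lam a t` is the sum of `a n * exp(-i t lam n)` over `n` in `S`; for
`lam n = log n` it is the Dirichlet polynomial with coefficients `a` at `i t`.
All mean values are taken with the weight `exp(-(t/T)^2)`. -/

namespace Pool.Agent.Lib.MP_3e612f_nt.LOC

open MeasureTheory Complex Finset
open scoped Real ComplexConjugate

/-- Exponential polynomial with real frequencies `lam`. -/
noncomputable def DP {ι : Type*} (S : Finset ι) (lam : ι → ℝ) (a : ι → ℂ) (t : ℝ) : ℂ :=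
  ∑ n ∈ S, a n * cexp (((-(t * lam n) : ℝ) : ℂ) * I)

/-- The Gaussian weight. -/
noncomputable def gw (T t : ℝ) : ℝ := Real.exp (-(t / T) ^ 2)

theorem gw_pos (T t : ℝ) : 0 < gw T t := Real.exp_pos _

theorem gw_le_one (T t : ℝ) : gw T t ≤ 1 := by
  unfold gw
  rw [Real.exp_le_one_iff]
  nlinarith [sq_nonneg (t / T)]

theorem gw_continuous (T : ℝ) : Continuous (gw T) := by
  unfold gw
  fun_prop

theorem DP_continuous {ι : Type*} (S : Finset ι) (lam : ι → ℝ) (a : ι → ℂ) :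
    Continuous (DP S lam a) := by
  unfold DP
  fun_prop

private theorem gint_aux {T : ℝ} (hT : 0 < T) (th : ℝ) :
    (Integrable (fun t : ℝ => cexp (((-(t * th) : ℝ) : ℂ) * I) * ((gw T t : ℝ) : ℂ))) ∧
    (∫ t : ℝ, cexp (((-(t * th) : ℝ) : ℂ) * I) * ((gw T t : ℝ) : ℂ)) =
      ((Real.sqrt π * T * Real.exp (-(T * th / 2) ^ 2) : ℝ) : ℂ) := by
  have hb : (-(1 / (T : ℂ) ^ 2)).re < 0 := by
    have : (-(1 / (T : ℂ) ^ 2)) = ((-(1 / T ^ 2) : ℝ) : ℂ) := by push_cast; ring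
    rw [this, Complex.ofReal_re]
    have : 0 < 1 / T ^ 2 := by positivity
    linarith
  have hf : (fun t : ℝ => cexp (((-(t * th) : ℝ) : ℂ) * I) * ((gw T t : ℝ) : ℂ)) =
      fun t : ℝ => cexp ((-(1 / (T : ℂ) ^ 2)) * (t : ℂ) ^ 2 + (-(th : ℂ) * I) * (t : ℂ) + 0) := by
    funext t
    unfold gw
    push_cast
    rw [← Complex.exp_add]
    congr 1
    ring
  rw [hf]
  refine ⟨integrable_cexp_quadratic' hb _ _, ?_⟩
  rw [integral_cexp_quadratic hb]
  have hT' : (T : ℂ) ≠ 0 := by exact_mod_cast hT.ne'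
  have e1 : (π : ℂ) / -(-(1 / (T : ℂ) ^ 2)) = ((π * T ^ 2 : ℝ) : ℂ) := by
    push_cast
    field_simp
  have e2 : (0 : ℂ) - (-(th : ℂ) * I) ^ 2 / (4 * (-(1 / (T : ℂ) ^ 2))) =
      ((-(T * th / 2) ^ 2 : ℝ) : ℂ) := by
    push_cast
    have : (-(th : ℂ) * I) ^ 2 = -(th : ℂ) ^ 2 := by
      rw [mul_pow, Complex.I_sq]; ring
    rw [this]
    field_simp
    ring
  rw [e1, e2, ← Complex.ofReal_exp]
  have e3 : ((π * T ^ 2 : ℝ) : ℂ) ^ (1 / 2 : ℂ) = ((Real.sqrt π * T : ℝ) : ℂ) := by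
    have h0 : (0 : ℝ) ≤ π * T ^ 2 := by positivity
    have : ((1 / 2 : ℂ)) = ((1 / 2 : ℝ) : ℂ) := by push_cast; ring
    rw [this, ← Complex.ofReal_cpow h0, ← Real.sqrt_eq_rpow, Real.sqrt_mul Real.pi_pos.le,
      Real.sqrt_sq hT.le]
  rw [e3]
  push_cast
  ring

theorem gint_integrable {T : ℝ} (hT : 0 < T) (th : ℝ) :
    Integrable (fun t : ℝ => cexp (((-(t * th) : ℝ) : ℂ) * I) * ((gw T t : ℝ) : ℂ)) :=
  (gint_aux hT th).1

theorem gint_eq {T : ℝ} (hT : 0 < T) (th : ℝ) :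
    (∫ t : ℝ, cexp (((-(t * th) : ℝ) : ℂ) * I) * ((gw T t : ℝ) : ℂ)) =
      ((Real.sqrt π * T * Real.exp (-(T * th / 2) ^ 2) : ℝ) : ℂ) :=
  (gint_aux hT th).2

private theorem normSq_DP {ι : Type*} (S : Finset ι) (lam : ι → ℝ) (a : ι → ℂ) (t : ℝ) :
    ((‖DP S lam a t‖ ^ 2 : ℝ) : ℂ) =
      ∑ n ∈ S, ∑ m ∈ S, (a n * conj (a m)) *
        cexp (((-(t * (lam n - lam m)) : ℝ) : ℂ) * I) := by
  rw [Complex.ofReal_pow, ← Complex.mul_conj', DP, map_sum, Finset.sum_mul_sum]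
  refine Finset.sum_congr rfl fun n _ => Finset.sum_congr rfl fun m _ => ?_
  rw [map_mul, ← Complex.exp_conj, map_mul, Complex.conj_ofReal, Complex.conj_I]
  have : cexp (((-(t * (lam n - lam m)) : ℝ) : ℂ) * I) =
      cexp (((-(t * lam n) : ℝ) : ℂ) * I) * cexp (((-(t * lam m) : ℝ) : ℂ) * -I) := by
    rw [← Complex.exp_add]
    congr 1
    push_cast
    ring
  rw [this]
  ring

theorem integrable_normSq_DP {ι : Type*} {T : ℝ} (hT : 0 < T) (S : Finset ι) (lam : ι → ℝ)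
    (a : ι → ℂ) : Integrable (fun t : ℝ => ‖DP S lam a t‖ ^ 2 * gw T t) := by
  have h : Integrable (fun t : ℝ => (((‖DP S lam a t‖ ^ 2 * gw T t : ℝ)) : ℂ)) := by
    have e : (fun t : ℝ => (((‖DP S lam a t‖ ^ 2 * gw T t : ℝ)) : ℂ)) = fun t : ℝ =>
        ∑ n ∈ S, ∑ m ∈ S, (a n * conj (a m)) *
        (cexp (((-(t * (lam n - lam m)) : ℝ) : ℂ) * I) * ((gw T t : ℝ) : ℂ)) := by
      funext t
      rw [Complex.ofReal_mul, normSq_DP, Finset.sum_mul]
      refine Finset.sum_congr rfl fun n _ => ?_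
      rw [Finset.sum_mul]
      refine Finset.sum_congr rfl fun m _ => by ring
    rw [e]
    refine integrable_finsetSum _ fun n _ => integrable_finsetSum _ fun m _ => ?_
    exact (gint_integrable hT _).const_mul _
  have h2 := h.re
  refine h2.congr (Filter.Eventually.of_forall fun t => ?_)
  exact Complex.ofReal_re _

/-- Gaussian Parseval identity. -/
theorem gauss_parseval {ι : Type*} {T : ℝ} (hT : 0 < T) (S : Finset ι) (lam : ι → ℝ)
    (a : ι → ℂ) :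
    (∫ t : ℝ, ‖DP S lam a t‖ ^ 2 * gw T t) =
      Real.sqrt π * T * ∑ n ∈ S, ∑ m ∈ S, (a n * conj (a m)).re *
        Real.exp (-(T * (lam n - lam m) / 2) ^ 2) := by
  have h : (((∫ t : ℝ, ‖DP S lam a t‖ ^ 2 * gw T t) : ℝ) : ℂ) =
      ∑ n ∈ S, ∑ m ∈ S, (a n * conj (a m)) *
        ((Real.sqrt π * T * Real.exp (-(T * (lam n - lam m) / 2) ^ 2) : ℝ) : ℂ) := by
    rw [← integral_complex_ofReal]
    have e : (fun t : ℝ => (((‖DP S lam a t‖ ^ 2 * gw T t : ℝ)) : ℂ)) = fun t : ℝ =>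
        ∑ n ∈ S, ∑ m ∈ S, (a n * conj (a m)) *
        (cexp (((-(t * (lam n - lam m)) : ℝ) : ℂ) * I) * ((gw T t : ℝ) : ℂ)) := by
      funext t
      rw [Complex.ofReal_mul, normSq_DP, Finset.sum_mul]
      refine Finset.sum_congr rfl fun n _ => ?_
      rw [Finset.sum_mul]
      refine Finset.sum_congr rfl fun m _ => by ring
    rw [e, integral_finsetSum]
    · refine Finset.sum_congr rfl fun n _ => ?_
      rw [integral_finsetSum]
      · refine Finset.sum_congr rfl fun m _ => ?_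
        rw [integral_const_mul, gint_eq hT]
      · intro m _
        exact (gint_integrable hT _).const_mul _
    · intro n _
      refine integrable_finsetSum _ fun m _ => ?_
      exact (gint_integrable hT _).const_mul _
  have h2 := congrArg Complex.re h
  rw [Complex.ofReal_re] at h2
  rw [h2, Complex.re_sum, Finset.mul_sum]
  refine Finset.sum_congr rfl fun n _ => ?_
  rw [Complex.re_sum, Finset.mul_sum]
  refine Finset.sum_congr rfl fun m _ => ?_
  rw [Complex.re_mul_ofReal]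
  ring

/-- Schur test for the Gaussian mean value. -/
theorem gauss_schur {ι : Type*} {T : ℝ} (hT : 0 < T) (S : Finset ι) (lam : ι → ℝ)
    (a : ι → ℂ) (B : ι → ℝ)
    (hB : ∀ n ∈ S, ∑ m ∈ S, Real.exp (-(T * (lam n - lam m) / 2) ^ 2) ≤ B n) :
    (∫ t : ℝ, ‖DP S lam a t‖ ^ 2 * gw T t) ≤
      Real.sqrt π * T * ∑ n ∈ S, B n * ‖a n‖ ^ 2 := by
  rw [gauss_parseval hT]
  refine mul_le_mul_of_nonneg_left ?_ (by positivity)
  have hsym : ∀ n m, Real.exp (-(T * (lam n - lam m) / 2) ^ 2) =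
      Real.exp (-(T * (lam m - lam n) / 2) ^ 2) := fun n m => by
    congr 1; ring
  have hre : ∀ n m, (a n * conj (a m)).re ≤ (‖a n‖ ^ 2 + ‖a m‖ ^ 2) / 2 := fun n m => by
    have h1 : (a n * conj (a m)).re ≤ ‖a n * conj (a m)‖ := Complex.re_le_norm _
    rw [norm_mul, RCLike.norm_conj] at h1
    nlinarith [sq_nonneg (‖a n‖ - ‖a m‖)]
  calc ∑ n ∈ S, ∑ m ∈ S, (a n * conj (a m)).re *
        Real.exp (-(T * (lam n - lam m) / 2) ^ 2)
      ≤ ∑ n ∈ S, ∑ m ∈ S, (‖a n‖ ^ 2 + ‖a m‖ ^ 2) / 2 *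
        Real.exp (-(T * (lam n - lam m) / 2) ^ 2) := by
        refine Finset.sum_le_sum fun n _ => Finset.sum_le_sum fun m _ => ?_
        exact mul_le_mul_of_nonneg_right (hre n m) (Real.exp_pos _).le
    _ = (∑ n ∈ S, ∑ m ∈ S, ‖a n‖ ^ 2 / 2 * Real.exp (-(T * (lam n - lam m) / 2) ^ 2)) +
        ∑ n ∈ S, ∑ m ∈ S, ‖a m‖ ^ 2 / 2 * Real.exp (-(T * (lam n - lam m) / 2) ^ 2) := by
        rw [← Finset.sum_add_distrib]
        refine Finset.sum_congr rfl fun n _ => ?_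
        rw [← Finset.sum_add_distrib]
        refine Finset.sum_congr rfl fun m _ => by ring
    _ = (∑ n ∈ S, ∑ m ∈ S, ‖a n‖ ^ 2 / 2 * Real.exp (-(T * (lam n - lam m) / 2) ^ 2)) +
        ∑ n ∈ S, ∑ m ∈ S, ‖a n‖ ^ 2 / 2 * Real.exp (-(T * (lam n - lam m) / 2) ^ 2) := by
        congr 1
        rw [Finset.sum_comm]
        refine Finset.sum_congr rfl fun n _ => Finset.sum_congr rfl fun m _ => ?_
        rw [hsym]
    _ = ∑ n ∈ S, (∑ m ∈ S, Real.exp (-(T * (lam n - lam m) / 2) ^ 2)) * ‖a n‖ ^ 2 := by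
        rw [← Finset.sum_add_distrib]
        refine Finset.sum_congr rfl fun n _ => ?_
        rw [← Finset.sum_add_distrib, Finset.sum_mul]
        refine Finset.sum_congr rfl fun m _ => by ring
    _ ≤ ∑ n ∈ S, B n * ‖a n‖ ^ 2 :=
        Finset.sum_le_sum fun n hn => mul_le_mul_of_nonneg_right (hB n hn) (by positivity)

/-! ### Counting lemmas for the Schur test -/

private theorem range_gauss {c : ℝ} (hc : 0 < c) (K : ℕ) :
    ∑ j ∈ range K, Real.exp (-c * ((j : ℝ) + 1) ^ 2) ≤ Real.sqrt (π / c) / 2 := by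
  have hanti : AntitoneOn (fun x : ℝ => Real.exp (-c * x ^ 2)) (Set.Icc (0 : ℝ) (0 + (K : ℝ))) := by
    intro x hx y hy hxy
    refine Real.exp_le_exp.mpr ?_
    have h1 : x ^ 2 ≤ y ^ 2 := pow_le_pow_left₀ hx.1 hxy 2
    nlinarith
  have h := AntitoneOn.sum_le_integral (f := fun x : ℝ => Real.exp (-c * x ^ 2)) hanti
  have e : ∑ j ∈ range K, Real.exp (-c * ((j : ℝ) + 1) ^ 2) =
      ∑ i ∈ range K, Real.exp (-c * ((0 : ℝ) + ((i + 1 : ℕ) : ℝ)) ^ 2) := by
    refine Finset.sum_congr rfl fun i _ => ?_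
    push_cast
    ring_nf
  rw [e]
  refine h.trans ?_
  rw [zero_add, intervalIntegral.integral_of_le (Nat.cast_nonneg K),
    ← integral_gaussian_Ioi]
  refine setIntegral_mono_set ((integrable_exp_neg_mul_sq hc).integrableOn)
    (Filter.Eventually.of_forall fun x => (Real.exp_pos _).le) ?_
  exact (Set.Ioc_subset_Ioi_self).eventuallyLE

private theorem nat_gauss {c : ℝ} (hc : 0 < c) (S : Finset ℕ) (n : ℕ) :
    ∑ m ∈ S, Real.exp (-c * ((m : ℝ) - n) ^ 2) ≤ 1 + Real.sqrt (π / c) := by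
  obtain ⟨K, hK⟩ : ∃ K : ℕ, S ⊆ range (n + (1 + K)) := by
    refine ⟨S.sup id, fun m hm => ?_⟩
    have : m ≤ S.sup id := Finset.le_sup (f := id) hm
    rw [Finset.mem_range]
    omega
  refine (Finset.sum_le_sum_of_subset_of_nonneg hK fun m _ _ => (Real.exp_pos _).le).trans ?_
  rw [Finset.sum_range_add, Finset.sum_range_add]
  have h1 : ∑ m ∈ range n, Real.exp (-c * ((m : ℝ) - n) ^ 2) ≤ Real.sqrt (π / c) / 2 := by
    rw [← Finset.sum_range_reflect]
    refine le_trans (le_of_eq ?_) (range_gauss hc n)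
    refine Finset.sum_congr rfl fun j hj => ?_
    have hj' := Finset.mem_range.mp hj
    have : ((n - 1 - j : ℕ) : ℝ) = (n : ℝ) - 1 - j := by
      rw [Nat.cast_sub (by omega), Nat.cast_sub (by omega)]
      simp
    rw [this]
    ring_nf
  have h2 : ∑ x ∈ range 1, Real.exp (-c * (((n + x : ℕ) : ℝ) - n) ^ 2) = 1 := by
    simp
  have h3 : ∑ x ∈ range K, Real.exp (-c * (((n + (1 + x) : ℕ) : ℝ) - n) ^ 2) ≤
      Real.sqrt (π / c) / 2 := by
    refine le_trans (le_of_eq ?_) (range_gauss hc K)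
    refine Finset.sum_congr rfl fun j _ => ?_
    push_cast
    ring_nf
  linarith

private theorem log_dist {n m : ℕ} (hn : 1 ≤ n) (hm : 1 ≤ m) (h : m ≤ 2 * n) :
    |(m : ℝ) - n| / (2 * n) ≤ |Real.log n - Real.log m| := by
  have hn' : (0 : ℝ) < n := by exact_mod_cast hn
  have hm' : (0 : ℝ) < m := by exact_mod_cast hm
  have h' : (m : ℝ) ≤ 2 * n := by exact_mod_cast h
  rw [← Real.log_div hn'.ne' hm'.ne']
  rcases le_total m n with hmn | hmn
  · have hmn' : (m : ℝ) ≤ n := by exact_mod_cast hmn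
    have h1 : 1 - ((n : ℝ) / m)⁻¹ ≤ Real.log ((n : ℝ) / m) :=
      Real.one_sub_inv_le_log_of_pos (by positivity)
    rw [inv_div] at h1
    rw [abs_of_nonpos (by linarith), abs_of_nonneg (by
      refine Real.log_nonneg ?_
      rw [le_div_iff₀ hm']; linarith)]
    refine le_trans ?_ h1
    rw [neg_sub, div_le_iff₀ (by positivity)]
    have : (1 - (m : ℝ) / n) * (2 * n) = 2 * (n - m) := by field_simp
    rw [this]
    linarith
  · have hmn' : (n : ℝ) ≤ m := by exact_mod_cast hmn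
    have h1 : 1 - ((m : ℝ) / n)⁻¹ ≤ Real.log ((m : ℝ) / n) :=
      Real.one_sub_inv_le_log_of_pos (by positivity)
    rw [inv_div] at h1
    have h2 : Real.log ((n : ℝ) / m) = -Real.log ((m : ℝ) / n) := by
      rw [← Real.log_inv, inv_div]
    rw [abs_of_nonneg (by linarith), h2, abs_neg, abs_of_nonneg (by
      refine Real.log_nonneg ?_
      rw [le_div_iff₀ hn']; linarith)]
    refine le_trans ?_ h1
    have : 1 - (n : ℝ) / m = (m - n) / m := by field_simp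
    rw [this]
    exact div_le_div_of_nonneg_left (by linarith) hm' h'

/-- The Schur sum over the `m <= 2 n`. -/
theorem near_sum {T : ℝ} (hT : 0 < T) {n : ℕ} (hn : 1 ≤ n) (S : Finset ℕ)
    (hS : ∀ m ∈ S, 1 ≤ m ∧ m ≤ 2 * n) :
    ∑ m ∈ S, Real.exp (-(T * (Real.log n - Real.log m) / 2) ^ 2) ≤
      1 + 4 * Real.sqrt π * n / T := by
  have hn' : (0 : ℝ) < n := by exact_mod_cast hn
  have hc : 0 < (T / (4 * n)) ^ 2 := by positivity
  have h1 : ∀ m ∈ S, Real.exp (-(T * (Real.log n - Real.log m) / 2) ^ 2) ≤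
      Real.exp (-(T / (4 * n)) ^ 2 * ((m : ℝ) - n) ^ 2) := by
    intro m hm
    refine Real.exp_le_exp.mpr ?_
    have h2 := log_dist hn (hS m hm).1 (hS m hm).2
    have h3 : (|(m : ℝ) - n| / (2 * n)) ^ 2 ≤ |Real.log n - Real.log m| ^ 2 :=
      pow_le_pow_left₀ (by positivity) h2 2
    rw [sq_abs, div_pow, sq_abs] at h3
    have h4 : (T / (4 * n)) ^ 2 * ((m : ℝ) - n) ^ 2 =
        (T / 2) ^ 2 * (((m : ℝ) - n) ^ 2 / (2 * n) ^ 2) := by
      field_simp
      ring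
    have h5 : (T * (Real.log n - Real.log m) / 2) ^ 2 =
        (T / 2) ^ 2 * (Real.log n - Real.log m) ^ 2 := by ring
    have h6 : (T / 2) ^ 2 * (((m : ℝ) - n) ^ 2 / (2 * n) ^ 2) ≤
        (T / 2) ^ 2 * (Real.log n - Real.log m) ^ 2 :=
      mul_le_mul_of_nonneg_left h3 (by positivity)
    rw [h5]
    have : -(T / (4 * (n : ℝ))) ^ 2 * ((m : ℝ) - n) ^ 2 =
      -((T / (4 * n)) ^ 2 * ((m : ℝ) - n) ^ 2) := by ring
    rw [this, h4]
    linarith
  refine (Finset.sum_le_sum h1).trans ?_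
  have h2 := nat_gauss hc S n
  have h3 : Real.sqrt (π / (T / (4 * n)) ^ 2) = 4 * Real.sqrt π * n / T := by
    rw [Real.sqrt_div Real.pi_pos.le, Real.sqrt_sq (by positivity)]
    field_simp
  rw [h3] at h2
  exact h2

private theorem inv_sq_sum (S : Finset ℕ) {n : ℕ} (hn : 1 ≤ n) (hS : ∀ m ∈ S, n < m) :
    ∑ m ∈ S, ((m : ℝ) ^ 2)⁻¹ ≤ (n : ℝ)⁻¹ := by
  have hsub : S ⊆ Ioc n (max n (S.sup id)) := by
    intro m hm
    have : m ≤ S.sup id := Finset.le_sup (f := id) hm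
    rw [Finset.mem_Ioc]
    exact ⟨hS m hm, this.trans (le_max_right _ _)⟩
  refine (Finset.sum_le_sum_of_subset_of_nonneg hsub fun m _ _ => by positivity).trans ?_
  refine (sum_Ioc_inv_sq_le_sub (by omega) (le_max_left _ _)).trans ?_
  have : (0 : ℝ) ≤ ((max n (S.sup id) : ℕ) : ℝ)⁻¹ := by positivity
  linarith

private theorem far_term {T : ℝ} (hT : 1 ≤ T) {n m : ℕ} (hn : 1 ≤ n) (h : 2 * n < m) :
    Real.exp (-(T * (Real.log n - Real.log m) / 2) ^ 2) ≤
      Real.exp 4 / T * (n : ℝ) ^ 2 * ((m : ℝ) ^ 2)⁻¹ := by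
  have hn' : (0 : ℝ) < n := by exact_mod_cast hn
  have hm' : (0 : ℝ) < m := by exact_mod_cast (show 0 < m by omega)
  have h' : 2 * (n : ℝ) < m := by exact_mod_cast h
  set u : ℝ := Real.log m - Real.log n with hu
  have hu1 : Real.log 2 ≤ u := by
    rw [hu, ← Real.log_div hm'.ne' hn'.ne']
    refine Real.log_le_log (by norm_num) ?_
    rw [le_div_iff₀ hn']
    linarith
  have hu2 : (0.69 : ℝ) ≤ u := by
    have := Real.log_two_gt_d9
    linarith
  have hlog : Real.log T ≤ T - 1 := Real.log_le_sub_one_of_pos (by linarith)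
  have key : 2 * u + Real.log T - 4 ≤ (T * u / 2) ^ 2 := by
    have h1 : 2 * (T * u) - 4 ≤ (T * u / 2) ^ 2 := by nlinarith [sq_nonneg (T * u / 2 - 2)]
    have h2 : 2 * u + Real.log T ≤ 2 * (T * u) := by nlinarith
    linarith
  have e1 : Real.exp 4 / T * (n : ℝ) ^ 2 * ((m : ℝ) ^ 2)⁻¹ =
      Real.exp (4 - Real.log T - 2 * u) := by
    rw [Real.exp_sub, Real.exp_sub, Real.exp_log (by linarith)]
    have : Real.exp (2 * u) = (m : ℝ) ^ 2 / (n : ℝ) ^ 2 := by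
      rw [hu, two_mul, Real.exp_add, Real.exp_sub, Real.exp_log hm', Real.exp_log hn']
      ring
    rw [this]
    field_simp
  rw [e1]
  refine Real.exp_le_exp.mpr ?_
  have : (T * (Real.log n - Real.log m) / 2) ^ 2 = (T * u / 2) ^ 2 := by rw [hu]; ring
  rw [this]
  linarith

/-- The full Schur sum over positive integers, for `T >= 1`. -/
theorem full_sum {T : ℝ} (hT : 1 ≤ T) {n : ℕ} (hn : 1 ≤ n) (S : Finset ℕ)
    (hS : ∀ m ∈ S, 1 ≤ m) :
    ∑ m ∈ S, Real.exp (-(T * (Real.log n - Real.log m) / 2) ^ 2) ≤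
      1 + (4 * Real.sqrt π + Real.exp 4 / 2) * n / T := by
  classical
  have hn' : (0 : ℝ) < n := by exact_mod_cast hn
  have hT0 : 0 < T := by linarith
  rw [← Finset.sum_filter_add_sum_filter_not S (fun m => m ≤ 2 * n)]
  have h1 := near_sum hT0 hn (S.filter fun m => m ≤ 2 * n) (fun m hm => by
    rw [Finset.mem_filter] at hm
    exact ⟨hS m hm.1, hm.2⟩)
  have h2 : ∑ m ∈ S.filter (fun m => ¬ m ≤ 2 * n),
      Real.exp (-(T * (Real.log n - Real.log m) / 2) ^ 2) ≤ Real.exp 4 / 2 * n / T := by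
    calc ∑ m ∈ S.filter (fun m => ¬ m ≤ 2 * n),
        Real.exp (-(T * (Real.log n - Real.log m) / 2) ^ 2)
        ≤ ∑ m ∈ S.filter (fun m => ¬ m ≤ 2 * n),
          Real.exp 4 / T * (n : ℝ) ^ 2 * ((m : ℝ) ^ 2)⁻¹ := by
          refine Finset.sum_le_sum fun m hm => far_term hT hn ?_
          rw [Finset.mem_filter] at hm
          omega
      _ = Real.exp 4 / T * (n : ℝ) ^ 2 *
          ∑ m ∈ S.filter (fun m => ¬ m ≤ 2 * n), ((m : ℝ) ^ 2)⁻¹ := by rw [Finset.mul_sum]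
      _ ≤ Real.exp 4 / T * (n : ℝ) ^ 2 * (((2 * n : ℕ) : ℝ))⁻¹ := by
          refine mul_le_mul_of_nonneg_left (inv_sq_sum _ (by omega) fun m hm => ?_) (by positivity)
          rw [Finset.mem_filter] at hm
          omega
      _ = Real.exp 4 / 2 * n / T := by
          push_cast
          field_simp
  calc _ ≤ (1 + 4 * Real.sqrt π * n / T) + Real.exp 4 / 2 * n / T := add_le_add h1 h2
    _ = _ := by ring

private theorem sqrt_pi_le : Real.sqrt π ≤ 1.7726 := by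
  rw [show (1.7726 : ℝ) = Real.sqrt (1.7726 ^ 2) by rw [Real.sqrt_sq (by norm_num)]]
  refine Real.sqrt_le_sqrt ?_
  have := Real.pi_lt_d6
  norm_num at *
  linarith

/-- Gaussian mean value theorem, support in a dyadic block. -/
theorem gauss_mv {T : ℝ} (hT : 0 < T) (S : Finset ℕ) (a : ℕ → ℂ)
    (hS : ∀ n ∈ S, 1 ≤ n) (hS2 : ∀ n ∈ S, ∀ m ∈ S, m ≤ 2 * n) :
    (∫ t : ℝ, ‖DP S (fun n => Real.log n) a t‖ ^ 2 * gw T t) ≤
      ∑ n ∈ S, (2 * T + 13 * n) * ‖a n‖ ^ 2 := by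
  refine (gauss_schur hT S _ a (fun n => 1 + 4 * Real.sqrt π * n / T) fun n hn =>
    near_sum hT (hS n hn) S fun m hm => ⟨hS m hm, hS2 n hn m hm⟩).trans ?_
  rw [Finset.mul_sum]
  refine Finset.sum_le_sum fun n _ => ?_
  have h1 : Real.sqrt π * T * ((1 + 4 * Real.sqrt π * n / T) * ‖a n‖ ^ 2) =
      (Real.sqrt π * T + 4 * π * n) * ‖a n‖ ^ 2 := by
    have h0 : Real.sqrt π * Real.sqrt π = π := Real.mul_self_sqrt Real.pi_pos.le
    field_simp
    linear_combination (4 * (n : ℝ) * ‖a n‖ ^ 2) * h0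
  rw [h1]
  refine mul_le_mul_of_nonneg_right ?_ (by positivity)
  have h2 := sqrt_pi_le
  have h3 := Real.pi_lt_d6
  have h4 : (0 : ℝ) ≤ n := Nat.cast_nonneg n
  nlinarith

/-- Gaussian mean value theorem, arbitrary support, `T >= 1`. -/
theorem gauss_mv_all {T : ℝ} (hT : 1 ≤ T) (S : Finset ℕ) (a : ℕ → ℂ)
    (hS : ∀ n ∈ S, 1 ≤ n) :
    (∫ t : ℝ, ‖DP S (fun n => Real.log n) a t‖ ^ 2 * gw T t) ≤
      ∑ n ∈ S, (2 * T + 63 * n) * ‖a n‖ ^ 2 := by
  have hT0 : 0 < T := by linarith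
  refine (gauss_schur hT0 S _ a (fun n => 1 + (4 * Real.sqrt π + Real.exp 4 / 2) * n / T)
    fun n hn => full_sum hT (hS n hn) S hS).trans ?_
  rw [Finset.mul_sum]
  refine Finset.sum_le_sum fun n _ => ?_
  have h1 : Real.sqrt π * T * ((1 + (4 * Real.sqrt π + Real.exp 4 / 2) * n / T) * ‖a n‖ ^ 2) =
      (Real.sqrt π * T + (4 * π + Real.sqrt π * Real.exp 4 / 2) * n) * ‖a n‖ ^ 2 := by
    have h0 : Real.sqrt π * Real.sqrt π = π := Real.mul_self_sqrt Real.pi_pos.le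
    field_simp
    linear_combination (8 * (n : ℝ) * ‖a n‖ ^ 2) * h0
  rw [h1]
  refine mul_le_mul_of_nonneg_right ?_ (by positivity)
  have h2 := sqrt_pi_le
  have h3 := Real.pi_lt_d6
  have h4 : (0 : ℝ) ≤ n := Nat.cast_nonneg n
  have h5 : Real.exp 4 ≤ 54.61 := by
    have h6 : Real.exp 4 = Real.exp 1 ^ 4 := by rw [← Real.exp_nat_mul]; norm_num
    have h7 := Real.exp_one_lt_d9
    have h8 : Real.exp 1 ^ 4 ≤ (2.7182818286 : ℝ) ^ 4 :=
      pow_le_pow_left₀ (Real.exp_pos _).le h7.le 4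
    rw [h6]
    refine h8.trans ?_
    norm_num
  have h9 : Real.sqrt π * Real.exp 4 ≤ 1.7726 * 54.61 :=
    mul_le_mul h2 h5 (Real.exp_pos _).le (by norm_num)
  have h10 : 4 * π + Real.sqrt π * Real.exp 4 / 2 ≤ 63 := by
    norm_num at h9 h3 ⊢
    linarith
  nlinarith

end Pool.Agent.Lib.MP_3e612f_nt.LOC
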